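import Mathlib
import Pool.Agent.N753.DR.Stm2

/-!
# The proximity part of project CV: statements

`A` is the affine ring of a curve over the number field `K`, finite over `K[X]`, `f_1, …, f_m` a
linear system without base points, `p` a monic polynomial (its zeros are the values of `X` at the
points of the divisor). The proximity function of `p(X) = 0` at the closed point `∑ c_i f_i = 0` is
small for most `c`.
-/

set_option autoImplicit false

namespace Pool.Agent.N751.CV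

open NumberField IsDedekindDomain Module Polynomial Pool.Agent.N753.DR
open scoped LinearAlgebra.Projectivization

open Classical in
/-- The local heights of `p = 0` at `y`, summed over the infinite places (with multiplicities) and
the primes above the primes of `S`. -/
noncomputable def prox {K M : Type} [Field K] [Field M] [NumberField M] [Algebra K M]
    (S : Finset ℕ) (p : K[X]) (y : M) : ℝ :=
  ∑ w : InfinitePlace M, (w.mult : ℝ) *
      Real.log (max (w y) 1 ^ p.natDegree / w (aeval y p)) +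
    ∑ᶠ v : HeightOneSpectrum (𝓞 M), if ∃ q ∈ S, (q : 𝓞 M) ∈ v.asIdeal then
      Real.log (max (FinitePlace.mk v y) 1 ^ p.natDegree / FinitePlace.mk v (aeval y p)) else 0

/-- the closed point `∑ P_i f_i = 0` is close to `p(X) = 0` -/
def BadP {K A : Type} [Field K] [NumberField K] [CommRing A] [Algebra K A] [Algebra K[X] A]
    {m : ℕ} (f : Fin m → A) (p : K[X]) (S : Finset ℕ) (κ : ℝ) (P : ℙ K (Fin m → K)) : Prop :=
  ∃ (M : Type) (_ : Field M) (_ : NumberField M) (_ : Algebra K M) (φ : A →ₐ[K] M),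
    Function.Surjective φ ∧ RingHom.ker φ = Ideal.span {mem f P.rep} ∧
    aeval (φ (algebraMap K[X] A X)) p ≠ 0 ∧
    κ * Height.logHeight P.rep < prox S p (φ (algebraMap K[X] A X))

/-- the norm of `∑ c_i β_i` from the finite dimensional algebra `R` -/
noncomputable def Nm {K R : Type} [Field K] [CommRing R] [Algebra K R] {m : ℕ} (β : Fin m → R)
    (c : Fin m → K) : K := Algebra.norm K (∑ i, c i • β i)

/-- **PX/NORM** the norm of the equation `s` of the closed point `φ` modulo `p(X)` is the norm of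
`p(y)`, `y = φ(X)`, up to a factor -/
def StmNorm : Prop := ∀ (K A M : Type) [Field K] [CommRing A] [IsDomain A] [Algebra K A]
  [Algebra K[X] A] [IsScalarTower K K[X] A] [Module.Finite K[X] A] [FaithfulSMul K[X] A]
  [Field M] [Algebra K M] (φ : A →ₐ[K] M) (s : A), Function.Surjective φ →
  RingHom.ker φ = Ideal.span {s} → s ≠ 0 → ∃ l : K, l ≠ 0 ∧ ∀ p : K[X], p.Monic →
    (Algebra.norm K (Ideal.Quotient.mk (Ideal.span {algebraMap K[X] A p}) s) =
        l ^ p.natDegree * Algebra.norm K (aeval (φ (algebraMap K[X] A X)) p) ∨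
      Algebra.norm K (Ideal.Quotient.mk (Ideal.span {algebraMap K[X] A p}) s) =
        -(l ^ p.natDegree * Algebra.norm K (aeval (φ (algebraMap K[X] A X)) p)))

/-- **PX/LOC** the proximity function and norms -/
def StmLoc : Prop := ∀ (K : Type) [Field K] [NumberField K] (p : K[X]), p.Monic →
  ∀ (S : Finset ℕ), (∀ q ∈ S, q.Prime) → ∀ (T : Finset (HeightOneSpectrum (𝓞 K))),
  (∀ v, v ∈ T ↔ ∃ q ∈ S, (q : 𝓞 K) ∈ v.asIdeal) → ∀ D : ℕ, ∃ C : ℝ,
  ∀ (M : Type) [Field M] [NumberField M] [Algebra K M] (y : M), finrank K M ≤ D →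
    aeval y p ≠ 0 → ∃ (a : (K →+* ℂ) → ℕ) (b : HeightOneSpectrum (𝓞 K) → ℕ),
      (∀ σ, a σ ≤ D ∧ Algebra.norm K (y - (a σ : M)) ≠ 0) ∧
      (∀ v, b v ≤ D ∧ Algebra.norm K (y - (b v : M)) ≠ 0) ∧
      prox S p y ≤
        ∑ σ : K →+* ℂ, (p.natDegree * Real.log ‖σ (Algebra.norm K (y - (a σ : M)))‖ -
          Real.log ‖σ (Algebra.norm K (aeval y p))‖) +
        ∑ v ∈ T, (p.natDegree * Real.log (FinitePlace.mk v (Algebra.norm K (y - (b v : M)))) -
          Real.log (FinitePlace.mk v (Algebra.norm K (aeval y p)))) + C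

/-- **PX/UP** upper bounds for norm forms -/
def StmUp : Prop := ∀ (K R : Type) [Field K] [NumberField K] [CommRing R] [Algebra K R]
  [FiniteDimensional K R] (m : ℕ) (β : Fin m → R),
  (∀ σ : K →+* ℂ, ∃ C : ℝ, ∀ B : ℕ, 1 ≤ B → ∀ c ∈ Bx K m B,
    ‖σ (Nm β fun i => (c i : K))‖ ≤ C * (B : ℝ) ^ finrank K R) ∧
  ∀ v : HeightOneSpectrum (𝓞 K), ∃ C : ℝ, ∀ c : Fin m → 𝓞 K,
    FinitePlace.mk v (Nm β fun i => (c i : K)) ≤ C

/-- **PX/VAL** norm forms are rarely small at a given place -/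
def StmVal : Prop := ∀ (K R : Type) [Field K] [NumberField K] [CommRing R] [Algebra K R]
  [FiniteDimensional K R] (m : ℕ) (β : Fin m → R), (∃ u : Fin m → K, Nm β u ≠ 0) →
  ∀ κ : ℝ, 0 < κ →
  (∀ σ : K →+* ℂ, ∃ ν C : ℝ, 0 < ν ∧ ∀ B : ℕ, 1 ≤ B →
    ({c ∈ Bx K m B | ‖σ (Nm β fun i => (c i : K))‖ ≤
      (B : ℝ) ^ ((finrank K R : ℝ) - κ)}.ncard : ℝ) ≤
      C * (B : ℝ) ^ ((finrank ℚ K : ℝ) * m - ν)) ∧
  (∀ v : HeightOneSpectrum (𝓞 K), ∃ ν C : ℝ, 0 < ν ∧ ∀ B : ℕ, 1 ≤ B →
    ({c ∈ Bx K m B | FinitePlace.mk v (Nm β fun i => (c i : K)) ≤ (B : ℝ) ^ (-κ)}.ncard : ℝ) ≤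
      C * (B : ℝ) ^ ((finrank ℚ K : ℝ) * m - ν))

/-- **PX/EX** a linear system without base points has a member which does not meet `p(X) = 0` -/
def StmEx : Prop := ∀ (K A : Type) [Field K] [Infinite K] [CommRing A] [IsDomain A] [Algebra K A]
  [Algebra K[X] A] [IsScalarTower K K[X] A] [Module.Finite K[X] A] [FaithfulSMul K[X] A]
  (m : ℕ) (f : Fin m → A), Ideal.span (Set.range f) = ⊤ → ∀ p : K[X], p.Monic →
  FiniteDimensional K (A ⧸ Ideal.span {algebraMap K[X] A p}) ∧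
  finrank K (A ⧸ Ideal.span {algebraMap K[X] A p}) = p.natDegree * finrank K[X] A ∧
  ∃ u : Fin m → K, Nm (fun i => Ideal.Quotient.mk (Ideal.span {algebraMap K[X] A p}) (f i)) u ≠ 0

/-- **PX/PROXC** the proximity function is small for most members of the linear system -/
def StmProxC : Prop := ∀ (K A : Type) [Field K] [NumberField K] [CommRing A] [IsDomain A]
  [Algebra K A] [Algebra K[X] A] [IsScalarTower K K[X] A] [Module.Finite K[X] A]
  [FaithfulSMul K[X] A] (m : ℕ) (f : Fin m → A), LinearIndependent K f →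
  Ideal.span (Set.range f) = ⊤ → ∀ (p : K[X]), p.Monic → ∀ (S : Finset ℕ), (∀ q ∈ S, q.Prime) →
  ∀ κ : ℝ, 0 < κ → ∃ ν C : ℝ, 0 < ν ∧ ∀ U : ℝ, 0 ≤ U →
    {P : ℙ K (Fin m → K) | BadP f p S κ P ∧ Height.logHeight P.rep ≤ U}.Finite ∧
    ({P : ℙ K (Fin m → K) | BadP f p S κ P ∧ Height.logHeight P.rep ≤ U}.ncard : ℝ) ≤
      C * Real.exp ((m - ν) * U)

end Pool.Agent.N751.CV
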