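import Mathlib
import Pool.Agent.N751.CV.Stm
import Pool.Agent.N262.DR.Deg

/-!
# PX/PROXC: the assembly
-/

set_option autoImplicit false
set_option linter.unusedSectionVars false

namespace Pool.Agent.N751.CV

open NumberField IsDedekindDomain Module Polynomial Pool.Agent.N753.DR
open Pool.Agent.N262.DR (badS_finite pow_bound Bx_finite Bx_card)
open scoped LinearAlgebra.Projectivization

section deg

theorem natDegree_det_le {K : Type} [Field K] {ι : Type} [Fintype ι] [DecidableEq ι]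
    (M : Matrix ι ι K[X]) (d : ℕ) (h : ∀ i j, (M i j).natDegree ≤ d) :
    M.det.natDegree ≤ Fintype.card ι * d := by
  rw [Matrix.det_apply]
  refine natDegree_sum_le_of_forall_le _ _ fun σ _ => ?_
  have h1 : (∏ i, M (σ i) i).natDegree ≤ Fintype.card ι * d := by
    refine (natDegree_prod_le _ _).trans ?_
    refine (Finset.sum_le_card_nsmul _ _ d fun i _ => h _ _).trans ?_
    simp
  rcases Int.units_eq_one_or (Equiv.Perm.sign σ) with h2 | h2 <;> rw [h2]
  · simpa using h1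
  · simpa using h1

variable {K A : Type} [Field K] [CommRing A] [IsDomain A] [Algebra K A] [Algebra K[X] A]
  [IsScalarTower K K[X] A] [Module.Finite K[X] A] [FaithfulSMul K[X] A]

theorem free_inst : Module.Free K[X] A := by
  have : Module.IsTorsionFree K[X] A := by
    rw [Module.isTorsionFree_iff_algebraMap_injective]
    exact FaithfulSMul.algebraMap_injective _ _
  infer_instance

theorem finrank_le {m : ℕ} (f : Fin m → A) : ∃ D : ℕ, ∀ c : Fin m → K, mem f c ≠ 0 →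
    finrank K (A ⧸ Ideal.span {mem f c}) ≤ D := by
  classical
  have := free_inst (K := K) (A := A)
  let b := Module.Free.chooseBasis K[X] A
  obtain ⟨d, hd⟩ : ∃ d : ℕ, ∀ i j k, (Algebra.leftMulMatrix b (f i) j k).natDegree ≤ d := by
    refine ⟨∑ i, ∑ j, ∑ k, (Algebra.leftMulMatrix b (f i) j k).natDegree, fun i j k => ?_⟩
    refine le_trans ?_ (Finset.single_le_sum (fun _ _ => Nat.zero_le _) (Finset.mem_univ i))
    refine le_trans ?_ (Finset.single_le_sum (fun _ _ => Nat.zero_le _) (Finset.mem_univ j))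
    exact Finset.single_le_sum (f := fun k => (Algebra.leftMulMatrix b (f i) j k).natDegree)
      (fun _ _ => Nat.zero_le _) (Finset.mem_univ k)
  refine ⟨Fintype.card (Module.Free.ChooseBasisIndex K[X] A) * d, fun c hc => ?_⟩
  rw [finrank_quotient_span_eq_natDegree_norm b hc, Algebra.norm_eq_matrix_det b]
  refine natDegree_det_le _ _ fun j k => ?_
  have h1 : Algebra.leftMulMatrix b (mem f c) = ∑ i, C (c i) • Algebra.leftMulMatrix b (f i) := by
    unfold mem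
    rw [map_sum]
    refine Finset.sum_congr rfl fun i _ => ?_
    have : c i • f i = (C (c i) : K[X]) • f i := by
      rw [← algebraMap_smul K[X] (c i) (f i)]
      rfl
    rw [this, map_smul]
  rw [h1, Matrix.sum_apply]
  refine natDegree_sum_le_of_forall_le _ _ fun i _ => ?_
  rw [Matrix.smul_apply, smul_eq_mul]
  exact (natDegree_C_mul_le _ _).trans (hd i j k)

end deg

section point

variable {K A : Type} [Field K] [NumberField K] [CommRing A] [IsDomain A] [Algebra K A]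
  [Algebra K[X] A] [IsScalarTower K K[X] A] [Module.Finite K[X] A] [FaithfulSMul K[X] A]

/-- the images of the `f i` modulo `p(X)` -/
noncomputable def bp {m : ℕ} (f : Fin m → A) (p : K[X]) (i : Fin m) :
    A ⧸ Ideal.span {algebraMap K[X] A p} := Ideal.Quotient.mk _ (f i)

theorem Nm_bp {m : ℕ} (f : Fin m → A) (p : K[X]) (c : Fin m → K) :
    Nm (bp f p) c = Algebra.norm K (Ideal.Quotient.mk (Ideal.span {algebraMap K[X] A p})
      (mem f c)) := by
  unfold Nm bp mem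
  congr 1
  rw [map_sum]
  refine Finset.sum_congr rfl fun i _ => ?_
  exact (map_smul (Ideal.Quotient.mkₐ K (Ideal.span {algebraMap K[X] A p})) (c i) (f i)).symm

theorem log_cancel {x l z w : ℝ} (d : ℕ) (hl : l ≠ 0) (hz : z ≠ 0) (hw : w ≠ 0)
    {a b : ℝ} (ha : a = l * z) (hb : b = l ^ d * w) (_ : x = 0) :
    (d : ℝ) * Real.log z - Real.log w = d * Real.log a - Real.log b := by
  rw [ha, hb, Real.log_mul hl hz, Real.log_mul (pow_ne_zero d hl) hw, Real.log_pow]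
  ring

/-- the inequality at one member of the linear system -/
theorem point (hN : StmNorm) {m : ℕ} (f : Fin m → A) (p : K[X]) (hp : p.Monic) (S : Finset ℕ)
    (T : Finset (HeightOneSpectrum (𝓞 K))) {D : ℕ} {CL : ℝ}
    (hCL : ∀ (M : Type) [Field M] [NumberField M] [Algebra K M] (y : M), finrank K M ≤ D →
    aeval y p ≠ 0 → ∃ (a : (K →+* ℂ) → ℕ) (b : HeightOneSpectrum (𝓞 K) → ℕ),
      (∀ σ, a σ ≤ D ∧ Algebra.norm K (y - (a σ : M)) ≠ 0) ∧
      (∀ v, b v ≤ D ∧ Algebra.norm K (y - (b v : M)) ≠ 0) ∧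
      prox S p y ≤
        ∑ σ : K →+* ℂ, (p.natDegree * Real.log ‖σ (Algebra.norm K (y - (a σ : M)))‖ -
          Real.log ‖σ (Algebra.norm K (aeval y p))‖) +
        ∑ v ∈ T, (p.natDegree * Real.log (FinitePlace.mk v (Algebra.norm K (y - (b v : M)))) -
          Real.log (FinitePlace.mk v (Algebra.norm K (aeval y p)))) + CL)
    {C1 : ℝ} (hC1 : 1 ≤ C1) {B : ℕ} (hB : 1 ≤ B) {c : Fin m → K} (hc0 : mem f c ≠ 0)
    (hup : ∀ a : ℕ, a ≤ D → (∀ σ : K →+* ℂ, ‖σ (Nm (bp f (X - C (a : K))) c)‖ ≤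
      C1 * (B : ℝ) ^ finrank K[X] A) ∧ ∀ v ∈ T, FinitePlace.mk v (Nm (bp f (X - C (a : K))) c) ≤ C1)
    {κ : ℝ} (hlow : (∀ σ : K →+* ℂ, (B : ℝ) ^ ((p.natDegree * finrank K[X] A : ℕ) - κ) <
      ‖σ (Nm (bp f p) c)‖) ∧ ∀ v ∈ T, (B : ℝ) ^ (-κ) < FinitePlace.mk v (Nm (bp f p) c))
    {M : Type} [Field M] [NumberField M] [Algebra K M] (hMD : finrank K M ≤ D) (φ : A →ₐ[K] M)
    (hφ : Function.Surjective φ) (hker : RingHom.ker φ = Ideal.span {mem f c})
    (hy : aeval (φ (algebraMap K[X] A X)) p ≠ 0) :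
    prox S p (φ (algebraMap K[X] A X)) ≤
      (finrank ℚ K + T.card : ℝ) * (p.natDegree * Real.log C1 + κ * Real.log B) + CL := by
  obtain ⟨y, hyd⟩ : ∃ y, y = φ (algebraMap K[X] A X) := ⟨_, rfl⟩
  rw [← hyd] at hy ⊢
  obtain ⟨l, hl, hnorm⟩ := hN K A M φ (mem f c) hφ hker hc0
  rw [← hyd] at hnorm
  obtain ⟨a, b, ha, hb, hprox⟩ := hCL M y hMD hy
  have hB0 : (0 : ℝ) < B := by exact_mod_cast hB
  have hlogC1 : 0 ≤ Real.log C1 := Real.log_nonneg hC1
  have hFD : FiniteDimensional K M := Module.Finite.of_restrictScalars_finite ℚ K M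
  have hNy : Algebra.norm K (aeval y p) ≠ 0 := Algebra.norm_ne_zero_iff.2 hy
  -- the norms of the fibres
  have h1 : ∀ q : K[X], q.Monic → ∀ F : K → ℝ, (∀ x z, F (x * z) = F x * F z) →
      (∀ x, F (-x) = F x) → F (Nm (bp f q) c) = F l ^ q.natDegree *
        F (Algebra.norm K (aeval y q)) := by
    intro q hq F hF1 hF2
    have hpow : ∀ (k : ℕ) (z : K), F (l ^ k * z) = F l ^ k * F z := by
      intro k
      induction k with
      | zero => intro z; simp
      | succ k ih => intro z; rw [pow_succ, mul_assoc, ih, hF1, pow_succ, mul_assoc]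
    rw [Nm_bp]
    rcases hnorm q hq with h | h
    · rw [h, hpow]
    · rw [h, hF2, hpow]
  have hX : ∀ k : ℕ, aeval y (X - C (k : K)) = y - (k : M) := by
    intro k
    rw [map_sub, aeval_X, aeval_C, map_natCast]
  have h2 : ∀ F : K → ℝ, (∀ x z, F (x * z) = F x * F z) → (∀ x, F (-x) = F x) →
      (∀ x, x ≠ 0 → 0 < F x) → ∀ k : ℕ, Algebra.norm K (y - (k : M)) ≠ 0 →
      (p.natDegree : ℝ) * Real.log (F (Algebra.norm K (y - (k : M)))) -
        Real.log (F (Algebra.norm K (aeval y p))) =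
      p.natDegree * Real.log (F (Nm (bp f (X - C (k : K))) c)) - Real.log (F (Nm (bp f p) c)) := by
    intro F hF1 hF2 hF3 k hk
    refine log_cancel (x := 0) p.natDegree (hF3 l hl).ne' (hF3 _ hk).ne' (hF3 _ hNy).ne' ?_ ?_ rfl
    · rw [h1 _ (monic_X_sub_C _) F hF1 hF2, natDegree_X_sub_C, pow_one, hX]
    · exact h1 p hp F hF1 hF2
  have h3 : ∀ σ : K →+* ℂ, (p.natDegree * Real.log ‖σ (Algebra.norm K (y - (a σ : M)))‖ -
          Real.log ‖σ (Algebra.norm K (aeval y p))‖) ≤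
        p.natDegree * Real.log C1 + κ * Real.log B := by
    intro σ
    have e1 := h2 (fun x => ‖σ x‖) (fun x z => by rw [map_mul, norm_mul])
      (fun x => by rw [map_neg, norm_neg]) (fun x hx => norm_pos_iff.2 ((map_ne_zero σ).2 hx))
      (a σ) (ha σ).2
    rw [e1]
    have e2 := ((hup (a σ) (ha σ).1).1 σ)
    have e3 := hlow.1 σ
    have e4 : Real.log ‖σ (Nm (bp f (X - C ((a σ : ℕ) : K))) c)‖ ≤
        Real.log C1 + finrank K[X] A * Real.log B := by
      rcases (norm_nonneg (σ (Nm (bp f (X - C ((a σ : ℕ) : K))) c))).eq_or_lt with h0 | h0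
      · rw [← h0, Real.log_zero]
        have : 0 ≤ Real.log (B : ℝ) := Real.log_nonneg (by exact_mod_cast hB)
        positivity
      · refine (Real.log_le_log h0 e2).trans ?_
        rw [Real.log_mul (by positivity) (by positivity), Real.log_pow]
    have e5 : ((p.natDegree * finrank K[X] A : ℕ) - κ) * Real.log B ≤
        Real.log ‖σ (Nm (bp f p) c)‖ := by
      rw [← Real.log_rpow hB0]
      exact Real.log_le_log (Real.rpow_pos_of_pos hB0 _) e3.le
    have e6 := mul_le_mul_of_nonneg_left e4 (Nat.cast_nonneg (α := ℝ) p.natDegree)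
    push_cast at e5
    linarith
  have h4 : ∀ v ∈ T, (p.natDegree * Real.log (FinitePlace.mk v (Algebra.norm K (y - (b v : M)))) -
          Real.log (FinitePlace.mk v (Algebra.norm K (aeval y p)))) ≤
        p.natDegree * Real.log C1 + κ * Real.log B := by
    intro v hv
    have e1 := h2 (fun x => FinitePlace.mk v x) (fun x z => by rw [map_mul])
      (fun x => by
        have := map_mul (FinitePlace.mk v) (-1) x
        rw [neg_one_mul] at this
        rw [this]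
        have h5 : FinitePlace.mk v (-1 : K) = 1 := by
          have h6 : FinitePlace.mk v (-1 : K) * FinitePlace.mk v (-1 : K) = 1 := by
            rw [← map_mul, neg_one_mul, neg_neg, map_one]
          have h7 : (0 : ℝ) ≤ FinitePlace.mk v (-1 : K) := apply_nonneg _ _
          nlinarith
        rw [h5, one_mul])
      (fun x hx => (FinitePlace.pos_iff).2 hx)
      (b v) (hb v).2
    rw [e1]
    have e2 := ((hup (b v) (hb v).1).2 v hv)
    have e3 := hlow.2 v hv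
    have e4 : Real.log (FinitePlace.mk v (Nm (bp f (X - C ((b v : ℕ) : K))) c)) ≤
        Real.log C1 := by
      rcases (apply_nonneg (FinitePlace.mk v)
        (Nm (bp f (X - C ((b v : ℕ) : K))) c)).eq_or_lt with h0 | h0
      · rw [← h0, Real.log_zero]
        exact hlogC1
      · exact Real.log_le_log h0 e2
    have e5 : -κ * Real.log B ≤ Real.log (FinitePlace.mk v (Nm (bp f p) c)) := by
      rw [← Real.log_rpow hB0]
      exact Real.log_le_log (Real.rpow_pos_of_pos hB0 _) e3.le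
    have e6 := mul_le_mul_of_nonneg_left e4 (Nat.cast_nonneg (α := ℝ) p.natDegree)
    linarith
  have h5 := Finset.sum_le_sum fun σ (_ : σ ∈ (Finset.univ : Finset (K →+* ℂ))) => h3 σ
  have h6 := Finset.sum_le_sum h4
  rw [Finset.sum_const, Finset.card_univ, NumberField.Embeddings.card, nsmul_eq_mul] at h5
  rw [Finset.sum_const, nsmul_eq_mul] at h6
  linarith

end point

/-- **PX/PROXC** -/
theorem proxC (hN : StmNorm) (hL : StmLoc) (hU : StmUp) (hV : StmVal) (hE : StmEx)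
    (hR : StmRedC) : StmProxC := by
  classical
  intro K A _ _ _ _ _ _ _ _ _ m f hf htop p hp S hS κ hκ
  have := free_inst (K := K) (A := A)
  set n : ℝ := (finrank ℚ K : ℝ) with hn
  have hn0 : 0 < n := by
    rw [hn]; exact_mod_cast (Module.finrank_pos : 0 < finrank ℚ K)
  -- the primes above `S`
  obtain ⟨T, hT⟩ : ∃ T : Finset (HeightOneSpectrum (𝓞 K)),
      ∀ v, v ∈ T ↔ ∃ q ∈ S, (q : 𝓞 K) ∈ v.asIdeal := by
    refine ⟨(badS_finite (K := K) S).toFinset, fun v => ?_⟩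
    rw [Set.Finite.mem_toFinset, Set.mem_ofPred_eq]
    exact ⟨fun ⟨q, h1, _, h3⟩ => ⟨q, h1, h3⟩, fun ⟨q, h1, h3⟩ => ⟨q, h1, (hS q h1).ne_zero, h3⟩⟩
  obtain ⟨D, hD⟩ := finrank_le (K := K) f
  obtain ⟨CL, hCL⟩ := hL K p hp S hS T hT D
  -- upper bounds
  have hup : ∃ C1 : ℝ, 1 ≤ C1 ∧ ∀ a : ℕ, a ≤ D → ∀ B : ℕ, 1 ≤ B → ∀ c ∈ Bx K m B,
      (∀ σ : K →+* ℂ, ‖σ (Nm (bp f (X - C (a : K))) fun i => (c i : K))‖ ≤
        C1 * (B : ℝ) ^ finrank K[X] A) ∧
      ∀ v ∈ T, FinitePlace.mk v (Nm (bp f (X - C (a : K))) fun i => (c i : K)) ≤ C1 := by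
    have h1 : ∀ a : ℕ, ∃ C1 : ℝ, 1 ≤ C1 ∧ ∀ B : ℕ, 1 ≤ B → ∀ c ∈ Bx K m B,
      (∀ σ : K →+* ℂ, ‖σ (Nm (bp f (X - C (a : K))) fun i => (c i : K))‖ ≤
        C1 * (B : ℝ) ^ finrank K[X] A) ∧
      ∀ v ∈ T, FinitePlace.mk v (Nm (bp f (X - C (a : K))) fun i => (c i : K)) ≤ C1 := by
      intro a
      obtain ⟨hfd, hfr, -⟩ := hE K A m f htop (X - C (a : K)) (monic_X_sub_C _)
      rw [natDegree_X_sub_C, one_mul] at hfr
      obtain ⟨h2, h3⟩ := hU K (A ⧸ Ideal.span {algebraMap K[X] A (X - C (a : K))}) m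
        (bp f (X - C (a : K)))
      choose Cσ hCσ using h2
      choose Cv hCv using h3
      rw [hfr] at hCσ
      refine ⟨1 + ∑ σ, |Cσ σ| + ∑ v ∈ T, |Cv v|, ?_, fun B hB c hc => ⟨fun σ => ?_,
        fun v hv => ?_⟩⟩
      · have e1 : 0 ≤ ∑ σ, |Cσ σ| := Finset.sum_nonneg fun _ _ => abs_nonneg _
        have e2 : 0 ≤ ∑ v ∈ T, |Cv v| := Finset.sum_nonneg fun _ _ => abs_nonneg _
        linarith
      · refine (hCσ σ B hB c hc).trans ?_
        gcongr
        have e1 : |Cσ σ| ≤ ∑ σ, |Cσ σ| :=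
          Finset.single_le_sum (f := fun σ => |Cσ σ|) (fun _ _ => abs_nonneg _)
            (Finset.mem_univ σ)
        have e2 : 0 ≤ ∑ v ∈ T, |Cv v| := Finset.sum_nonneg fun _ _ => abs_nonneg _
        have := le_abs_self (Cσ σ)
        linarith
      · refine (hCv v c).trans ?_
        have e1 : |Cv v| ≤ ∑ v ∈ T, |Cv v| :=
          Finset.single_le_sum (f := fun v => |Cv v|) (fun _ _ => abs_nonneg _) hv
        have e2 : 0 ≤ ∑ σ, |Cσ σ| := Finset.sum_nonneg fun _ _ => abs_nonneg _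
        have := le_abs_self (Cv v)
        linarith
    choose Ca hCa1 hCa using h1
    refine ⟨∑ a ∈ Finset.range (D + 1), Ca a, ?_, fun a ha B hB c hc => ⟨fun σ => ?_,
      fun v hv => ?_⟩⟩
    · exact (hCa1 0).trans (Finset.single_le_sum (f := Ca)
        (fun a _ => zero_le_one.trans (hCa1 a)) (Finset.mem_range.2 (Nat.succ_pos D)))
    · refine ((hCa a B hB c hc).1 σ).trans ?_
      gcongr
      exact Finset.single_le_sum (f := Ca)
        (fun a _ => zero_le_one.trans (hCa1 a)) (Finset.mem_range.2 (Nat.lt_succ_of_le ha))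
    · refine ((hCa a B hB c hc).2 v hv).trans ?_
      exact Finset.single_le_sum (f := Ca)
        (fun a _ => zero_le_one.trans (hCa1 a)) (Finset.mem_range.2 (Nat.lt_succ_of_le ha))
  obtain ⟨C1, hC1, hup⟩ := hup
  -- lower bounds
  obtain ⟨hfd, hfr, u, hu⟩ := hE K A m f htop p hp
  obtain ⟨κ', hκ'0, hκ'⟩ : ∃ κ' : ℝ, 0 < κ' ∧ (n + T.card) * κ' / n ≤ κ / 8 := by
    refine ⟨κ * n / (8 * (n + T.card)), by positivity, le_of_eq ?_⟩
    field_simp
  obtain ⟨hV1, hV2⟩ := hV K (A ⧸ Ideal.span {algebraMap K[X] A p}) m (bp f p) ⟨u, hu⟩ κ' hκ'0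
  choose νσ Cσ hνσ hCσ using hV1
  choose νv Cv hνv hCv using hV2
  rw [hfr] at hCσ
  obtain ⟨ν, hν, hνs, hνT⟩ : ∃ ν : ℝ, 0 < ν ∧ (∀ σ, ν ≤ νσ σ) ∧ ∀ v ∈ T, ν ≤ νv v := by
    obtain ⟨a, ha0, ha⟩ : ∃ a : ℝ, 0 < a ∧ ∀ σ, a ≤ νσ σ := by
      refine ⟨(Finset.univ : Finset (K →+* ℂ)).inf' Finset.univ_nonempty νσ, ?_, fun σ =>
        Finset.inf'_le _ (Finset.mem_univ σ)⟩
      rw [Finset.lt_inf'_iff]
      exact fun σ _ => hνσ σ
    obtain ⟨b, hb0, hb⟩ : ∃ b : ℝ, 0 < b ∧ ∀ v ∈ T, b ≤ νv v := by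
      rcases T.eq_empty_or_nonempty with h | h
      · exact ⟨1, one_pos, fun v hv => by rw [h] at hv; simp at hv⟩
      · refine ⟨T.inf' h νv, ?_, fun v hv => Finset.inf'_le _ hv⟩
        rw [Finset.lt_inf'_iff]
        exact fun v _ => hνv v
    exact ⟨min a b, lt_min ha0 hb0, fun σ => (min_le_left _ _).trans (ha σ),
      fun v hv => (min_le_right _ _).trans (hb v hv)⟩
  obtain ⟨BadR, C0, hC0, hRC⟩ := hR K m
  set c0 : ℝ := max C0 1 with hc0
  have hc01 : 1 ≤ c0 := le_max_right _ _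
  -- the map to the box
  have hbox : ∀ (U : ℝ) (P : ℙ K (Fin m → K)), Height.logHeight P.rep ≤ U →
      ∃ (c : Fin m → 𝓞 K) (l : K), l ≠ 0 ∧ (∀ i, (c i : K) = l * P.rep i) ∧
        c ∈ Bx K m ⌈c0 * Real.exp (U / n)⌉₊ := by
    intro U P hPU
    obtain ⟨c, l, hl, hcl, -, hsz⟩ := hRC P.rep P.rep_nonzero
    refine ⟨c, l, hl, hcl, fun j => ?_⟩
    have h4 := hsz j
    have h5 : Real.exp (Height.logHeight P.rep / n) ≤ Real.exp (U / n) :=
      Real.exp_le_exp.mpr (div_le_div_of_nonneg_right hPU hn0.le)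
    have h6 : (sz (c j) : ℝ) ≤ ⌈c0 * Real.exp (U / n)⌉₊ := by
      refine h4.trans (le_trans ?_ (Nat.le_ceil _))
      exact mul_le_mul (le_max_left _ _) h5 (Real.exp_pos _).le (by positivity)
    exact_mod_cast h6
  have hsc : ∀ U : ℝ, 0 ≤ U → 1 ≤ ⌈c0 * Real.exp (U / n)⌉₊ ∧
      Real.exp (U / n) ≤ ⌈c0 * Real.exp (U / n)⌉₊ ∧
      (⌈c0 * Real.exp (U / n)⌉₊ : ℝ) ≤ 2 * c0 * Real.exp (U / n) := by
    intro U hU
    have hy1 : 1 ≤ Real.exp (U / n) := Real.one_le_exp (by positivity)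
    have hBl : c0 * Real.exp (U / n) ≤ ⌈c0 * Real.exp (U / n)⌉₊ := Nat.le_ceil _
    have h1 : 1 ≤ c0 * Real.exp (U / n) := one_le_mul_of_one_le_of_one_le hc01 hy1
    refine ⟨?_, ?_, ?_⟩
    · exact_mod_cast h1.trans hBl
    · have : 1 * Real.exp (U / n) ≤ c0 * Real.exp (U / n) :=
        mul_le_mul_of_nonneg_right hc01 (by positivity)
      linarith
    · have := Nat.ceil_lt_add_one (a := c0 * Real.exp (U / n)) (by positivity)
      linarith
  have hinj : ∀ (F : ℙ K (Fin m → K) → (Fin m → 𝓞 K)) (Z : Set (ℙ K (Fin m → K))),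
      (∀ P ∈ Z, ∃ l : K, l ≠ 0 ∧ ∀ i, (F P i : K) = l * P.rep i) → Set.InjOn F Z := by
    intro F Z hF P hP P' hP' hPP
    obtain ⟨l, hl, h⟩ := hF P hP
    obtain ⟨l', hl', h'⟩ := hF P' hP'
    rw [← P.mk_rep, ← P'.mk_rep, Projectivization.mk_eq_mk_iff']
    refine ⟨l⁻¹ * l', ?_⟩
    funext i
    have e : l * P.rep i = l' * P'.rep i := by rw [← h i, ← h' i, hPP]
    rw [Pi.smul_apply, smul_eq_mul, mul_assoc, ← e, ← mul_assoc, inv_mul_cancel₀ hl, one_mul]
  -- the number of all points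
  have htot : ∀ U : ℝ, 0 ≤ U → {P : ℙ K (Fin m → K) | Height.logHeight P.rep ≤ U}.Finite ∧
      ({P : ℙ K (Fin m → K) | Height.logHeight P.rep ≤ U}.ncard : ℝ) ≤
        (6 * c0) ^ (n * m) * Real.exp (m * U) := by
    intro U hU
    choose! F l hl0 hl hFB using hbox U
    have hi := hinj F {P | Height.logHeight P.rep ≤ U} fun P hP => ⟨l P, hl0 P hP, hl P hP⟩
    have hf' := Bx_finite (K := K) m ⌈c0 * Real.exp (U / n)⌉₊
    refine ⟨Set.Finite.of_injOn (fun P hP => hFB P hP) hi hf', ?_⟩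
    obtain ⟨s1, s2, s3⟩ := hsc U hU
    have h4 := (Set.ncard_le_ncard_of_injOn F (fun P hP => hFB P hP) hi hf').trans
      (Bx_card (K := K) m ⌈c0 * Real.exp (U / n)⌉₊)
    have h5 : (({P : ℙ K (Fin m → K) | Height.logHeight P.rep ≤ U}.ncard : ℕ) : ℝ) ≤
        (2 * (⌈c0 * Real.exp (U / n)⌉₊ : ℝ) + 1) ^ (finrank ℚ K * m) := by exact_mod_cast h4
    refine h5.trans ?_
    have h6 : (2 * (⌈c0 * Real.exp (U / n)⌉₊ : ℝ) + 1) ≤ 6 * c0 * Real.exp (U / n) := by
      have : (1 : ℝ) ≤ ⌈c0 * Real.exp (U / n)⌉₊ := by exact_mod_cast s1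
      linarith
    refine (pow_le_pow_left₀ (by positivity) h6 _).trans (le_of_eq ?_)
    rw [mul_pow, ← Real.exp_nat_mul, ← Real.rpow_natCast (6 * c0)]
    push_cast
    congr 2
    rw [← hn]
    field_simp
  obtain ⟨U0, hU00, hU0⟩ : ∃ U0 : ℝ, 0 ≤ U0 ∧ ∀ U : ℝ, U0 ≤ U →
      (n + T.card) * (p.natDegree * Real.log C1 + κ' * (Real.log (2 * c0) + U / n)) + CL ≤
        κ * (U / 2) := by
    obtain ⟨Z, hZ⟩ : ∃ Z, Z = (n + T.card) * (p.natDegree * Real.log C1 +
      κ' * Real.log (2 * c0)) + CL := ⟨_, rfl⟩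
    refine ⟨|Z| * 8 / κ, by positivity, fun U hU => ?_⟩
    have h1 : (n + T.card) * (p.natDegree * Real.log C1 + κ' * (Real.log (2 * c0) + U / n)) + CL =
        Z + ((n + T.card) * κ' / n) * U := by
      rw [hZ]
      field_simp
      ring
    have hUn : 0 ≤ U := le_trans (by positivity) hU
    have h2 := mul_le_mul_of_nonneg_right hκ' hUn
    have h3 : |Z| * 8 ≤ U * κ := by
      rwa [div_le_iff₀ hκ] at hU
    have h4 := le_abs_self Z
    have h5 : 0 ≤ κ * U := by positivity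
    rw [h1]
    nlinarith
  -- no points in the case `m = 0`
  rcases Nat.eq_zero_or_pos m with hm0 | hm0
  · refine ⟨1, 0, one_pos, fun U hU => ?_⟩
    have he : {P : ℙ K (Fin m → K) | BadP f p S κ P ∧ Height.logHeight P.rep ≤ U} = ∅ := by
      rw [Set.eq_empty_iff_forall_notMem]
      intro P _
      apply P.rep_nonzero
      subst hm0
      exact Subsingleton.elim _ _
    rw [he]
    simp
  have hm1 : (1 : ℝ) ≤ m := by exact_mod_cast hm0
  -- the exceptional set at the scale `B`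
  obtain ⟨Exc, hExc⟩ : ∃ Exc : ℕ → Set (Fin m → 𝓞 K), ∀ B, Exc B =
      (⋃ σ ∈ (Finset.univ : Finset (K →+* ℂ)),
        {c ∈ Bx K m B | ‖σ (Nm (bp f p) fun i => (c i : K))‖ ≤
          (B : ℝ) ^ (((p.natDegree * finrank K[X] A : ℕ) : ℝ) - κ')}) ∪
      ⋃ v ∈ T, {c ∈ Bx K m B | FinitePlace.mk v (Nm (bp f p) fun i => (c i : K)) ≤
        (B : ℝ) ^ (-κ')} := ⟨_, fun _ => rfl⟩
  have hExcB : ∀ B, Exc B ⊆ Bx K m B := by
    intro B c hc
    rw [hExc] at hc
    rcases hc with hc | hc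
    · obtain ⟨σ, -, h⟩ := Set.mem_iUnion₂.1 hc
      exact h.1
    · obtain ⟨v, -, h⟩ := Set.mem_iUnion₂.1 hc
      exact h.1
  obtain ⟨C2, hC20, hC2⟩ : ∃ C2 : ℝ, 0 ≤ C2 ∧ ∀ B : ℕ, 1 ≤ B →
      ((Exc B).ncard : ℝ) ≤ C2 * (B : ℝ) ^ (n * m - ν) := by
    refine ⟨∑ σ, |Cσ σ| + ∑ v ∈ T, |Cv v|, by positivity, fun B hB => ?_⟩
    have hB1 : (1 : ℝ) ≤ B := by exact_mod_cast hB
    have hBf := Bx_finite (K := K) m B
    rw [hExc, add_mul, Finset.sum_mul, Finset.sum_mul]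
    have e0 : ∀ a b : ℝ, a ≤ b → (B : ℝ) ^ (n * m - b) ≤ (B : ℝ) ^ (n * m - a) := fun a b h =>
      Real.rpow_le_rpow_of_exponent_le hB1 (by linarith)
    have e1 : ((⋃ σ ∈ (Finset.univ : Finset (K →+* ℂ)),
        {c ∈ Bx K m B | ‖σ (Nm (bp f p) fun i => (c i : K))‖ ≤
          (B : ℝ) ^ (((p.natDegree * finrank K[X] A : ℕ) : ℝ) - κ')}).ncard : ℝ) ≤
        ∑ σ, |Cσ σ| * (B : ℝ) ^ (n * m - ν) := by
      refine le_trans (b := ∑ σ : K →+* ℂ, (({c ∈ Bx K m B |
        ‖σ (Nm (bp f p) fun i => (c i : K))‖ ≤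
          (B : ℝ) ^ (((p.natDegree * finrank K[X] A : ℕ) : ℝ) - κ')}.ncard : ℕ) : ℝ)) ?_ ?_
      · exact_mod_cast Finset.set_ncard_biUnion_le _ _
      · refine Finset.sum_le_sum fun σ _ => (hCσ σ B hB).trans ?_
        refine mul_le_mul (le_abs_self _) (e0 _ _ (hνs σ)) (by positivity) (abs_nonneg _)
    have e2 : ((⋃ v ∈ T, {c ∈ Bx K m B | FinitePlace.mk v (Nm (bp f p) fun i => (c i : K)) ≤
        (B : ℝ) ^ (-κ')}).ncard : ℝ) ≤ ∑ v ∈ T, |Cv v| * (B : ℝ) ^ (n * m - ν) := by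
      refine le_trans (b := ∑ v ∈ T, (({c ∈ Bx K m B |
        FinitePlace.mk v (Nm (bp f p) fun i => (c i : K)) ≤
          (B : ℝ) ^ (-κ')}.ncard : ℕ) : ℝ)) ?_ ?_
      · exact_mod_cast Finset.set_ncard_biUnion_le _ _
      · refine Finset.sum_le_sum fun v hv => (hCv v B hB).trans ?_
        refine mul_le_mul (le_abs_self _) (e0 _ _ (hνT v hv)) (by positivity) (abs_nonneg _)
    refine le_trans ?_ (add_le_add e1 e2)
    exact_mod_cast Set.ncard_union_le _ _
  obtain ⟨ν', hν', hνa, hνb⟩ : ∃ ν' : ℝ, 0 < ν' ∧ ν' ≤ ν / n ∧ ν' ≤ 1 / 2 :=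
    ⟨min (ν / n) (1 / 2), by positivity, min_le_left _ _, min_le_right _ _⟩
  obtain ⟨C3, hC3⟩ : ∃ C3, C3 = (6 * c0) ^ (n * m) := ⟨_, rfl⟩
  have hC30 : 0 ≤ C3 := by rw [hC3]; positivity
  refine ⟨ν', C3 * Real.exp (m * U0) + C3 + C2 * (2 * c0) ^ |n * m - ν|, hν', fun U hU => ?_⟩
  have hexp1 : 1 ≤ Real.exp ((m - ν') * U) := Real.one_le_exp (mul_nonneg (by linarith) hU)
  have hsub0 : {P : ℙ K (Fin m → K) | BadP f p S κ P ∧ Height.logHeight P.rep ≤ U} ⊆
      {P : ℙ K (Fin m → K) | Height.logHeight P.rep ≤ U} := fun P hP => hP.2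
  refine ⟨(htot U hU).1.subset hsub0, ?_⟩
  have hz1 : 0 ≤ C3 * Real.exp (m * U0) := by positivity
  have hz2 : 0 ≤ C2 * (2 * c0) ^ |n * m - ν| := by positivity
  rcases lt_or_ge U U0 with hUU | hUU
  · have h1 : {P : ℙ K (Fin m → K) | BadP f p S κ P ∧ Height.logHeight P.rep ≤ U} ⊆
      {P : ℙ K (Fin m → K) | Height.logHeight P.rep ≤ U0} := fun P hP => hP.2.trans hUU.le
    have h2 : (({P : ℙ K (Fin m → K) | BadP f p S κ P ∧
        Height.logHeight P.rep ≤ U}.ncard : ℕ) : ℝ) ≤ C3 * Real.exp (m * U0) := by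
      refine le_trans ?_ ((htot U0 hU00).2.trans (le_of_eq (by rw [hC3])))
      exact_mod_cast Set.ncard_le_ncard h1 (htot U0 hU00).1
    refine h2.trans ?_
    calc C3 * Real.exp (m * U0) ≤
        (C3 * Real.exp (m * U0) + C3 + C2 * (2 * c0) ^ |n * m - ν|) * 1 := by linarith
      _ ≤ _ := mul_le_mul_of_nonneg_left hexp1 (by linarith)
  -- large `U`
  obtain ⟨s1, s2, s3⟩ := hsc U hU
  obtain ⟨B, hBdef⟩ : ∃ B, B = ⌈c0 * Real.exp (U / n)⌉₊ := ⟨_, rfl⟩
  rw [← hBdef] at s1 s2 s3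
  have hB0 : (0 : ℝ) < B := by exact_mod_cast s1
  have hlogB : Real.log B ≤ Real.log (2 * c0) + U / n := by
    refine (Real.log_le_log hB0 s3).trans (le_of_eq ?_)
    rw [Real.log_mul (by positivity) (Real.exp_pos _).ne', Real.log_exp]
  obtain ⟨Z, hZ⟩ : ∃ Z : Set (ℙ K (Fin m → K)), Z = {P | (BadP f p S κ P ∧
      Height.logHeight P.rep ≤ U) ∧ U / 2 < Height.logHeight P.rep} := ⟨_, rfl⟩
  have hkey : ∀ P ∈ Z, ∃ c : Fin m → 𝓞 K, c ∈ Exc B ∧ ∃ l : K, l ≠ 0 ∧
      ∀ i, (c i : K) = l * P.rep i := by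
    intro P hP
    rw [hZ] at hP
    obtain ⟨⟨⟨M, _, _, _, φ, hφ, hker, hy, hbad⟩, hPU⟩, hPU2⟩ := hP
    obtain ⟨c, l, hl, hcl, hcB⟩ := hbox U P hPU
    rw [← hBdef] at hcB
    refine ⟨c, ?_, l, hl, hcl⟩
    have hmem : (mem f fun i => (c i : K)) = algebraMap K A l * mem f P.rep := by
      unfold mem
      rw [Finset.mul_sum]
      refine Finset.sum_congr rfl fun i _ => ?_
      show (c i : K) • f i = algebraMap K A l * (P.rep i • f i)
      rw [hcl i, mul_smul, Algebra.smul_def l]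
    have hlu : IsUnit (algebraMap K A l) := (isUnit_iff_ne_zero.2 hl).map _
    have hker' : RingHom.ker φ = Ideal.span {mem f fun i => (c i : K)} := by
      rw [hker, hmem, Ideal.span_singleton_mul_left_unit hlu]
    have hc0 : (mem f fun i => (c i : K)) ≠ 0 := by
      intro h0
      apply P.rep_nonzero
      funext i
      have h1 := Fintype.linearIndependent_iff.1 hf (fun i => (c i : K)) h0 i
      rw [hcl i] at h1
      exact (mul_eq_zero.1 h1).resolve_left hl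
    have hMD : finrank K M ≤ D := by
      have e1 := hD _ hc0
      rw [← hker'] at e1
      have e2 : (A ⧸ RingHom.ker φ) ≃ₐ[K] M := Ideal.quotientKerAlgEquivOfSurjective hφ
      rw [← e2.toLinearEquiv.finrank_eq]
      exact e1
    by_contra hcon
    rw [hExc] at hcon
    have hlow : (∀ σ : K →+* ℂ, (B : ℝ) ^ (((p.natDegree * finrank K[X] A : ℕ) : ℝ) - κ') <
      ‖σ (Nm (bp f p) fun i => (c i : K))‖) ∧
      ∀ v ∈ T, (B : ℝ) ^ (-κ') < FinitePlace.mk v (Nm (bp f p) fun i => (c i : K)) := by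
      refine ⟨fun σ => ?_, fun v hv => ?_⟩
      · by_contra h
        exact hcon (Or.inl (Set.mem_iUnion₂.2 ⟨σ, Finset.mem_univ σ, hcB, not_lt.1 h⟩))
      · by_contra h
        exact hcon (Or.inr (Set.mem_iUnion₂.2 ⟨v, hv, hcB, not_lt.1 h⟩))
    have h1 := point hN f p hp S T hCL hC1 s1 hc0 (fun a ha => hup a ha B s1 c hcB) hlow hMD φ hφ
      hker' hy
    have h2 := hU0 U hUU
    have h3 : κ * (U / 2) < κ * Height.logHeight P.rep := mul_lt_mul_of_pos_left hPU2 hκ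
    have h4 : (n + T.card) * (p.natDegree * Real.log C1 + κ' * Real.log B) ≤
        (n + T.card) * (p.natDegree * Real.log C1 + κ' * (Real.log (2 * c0) + U / n)) := by
      gcongr
    linarith
  choose! F hFE hFl using hkey
  have hi := hinj F Z hFl
  have hEf : (Exc B).Finite := (Bx_finite (K := K) m B).subset (hExcB B)
  have hZn : (Z.ncard : ℝ) ≤ C2 * (2 * c0) ^ |n * m - ν| * Real.exp ((m - ν / n) * U) := by
    have h1 : (Z.ncard : ℝ) ≤ ((Exc B).ncard : ℝ) := by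
      exact_mod_cast Set.ncard_le_ncard_of_injOn F hFE hi hEf
    refine h1.trans ((hC2 B s1).trans ?_)
    have h5 := pow_bound (c := 2 * c0) (B := B) (y := Real.exp (U / n)) (E := n * m - ν)
      (by linarith) (by positivity) s2 s3
    have h6 : Real.exp (U / n) ^ (n * m - ν) = Real.exp ((m - ν / n) * U) := by
      rw [← Real.exp_mul]
      congr 1
      field_simp
    rw [h6] at h5
    rw [mul_assoc]
    exact mul_le_mul_of_nonneg_left h5 hC20
  have hcov : {P : ℙ K (Fin m → K) | BadP f p S κ P ∧ Height.logHeight P.rep ≤ U} ⊆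
      {P : ℙ K (Fin m → K) | Height.logHeight P.rep ≤ U / 2} ∪ Z := by
    intro P hP
    rcases le_or_gt (Height.logHeight P.rep) (U / 2) with h | h
    · exact Or.inl h
    · right
      rw [hZ]
      exact ⟨hP, h⟩
  have hZf : Z.Finite := (htot U hU).1.subset fun P hP => by
    rw [hZ] at hP
    exact hP.1.2
  have ht2 := htot (U / 2) (by linarith)
  have h7 : (({P : ℙ K (Fin m → K) | BadP f p S κ P ∧
      Height.logHeight P.rep ≤ U}.ncard : ℕ) : ℝ) ≤
      ({P : ℙ K (Fin m → K) | Height.logHeight P.rep ≤ U / 2}.ncard : ℝ) + (Z.ncard : ℝ) := by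
    exact_mod_cast (Set.ncard_le_ncard hcov (ht2.1.union hZf)).trans (Set.ncard_union_le _ _)
  refine h7.trans ?_
  have h8 : ({P : ℙ K (Fin m → K) | Height.logHeight P.rep ≤ U / 2}.ncard : ℝ) ≤
      C3 * Real.exp ((m - ν') * U) := by
    refine ht2.2.trans ?_
    rw [← hC3]
    refine mul_le_mul_of_nonneg_left (Real.exp_le_exp.2 ?_) hC30
    nlinarith
  have h9 : C2 * (2 * c0) ^ |n * m - ν| * Real.exp ((m - ν / n) * U) ≤
      C2 * (2 * c0) ^ |n * m - ν| * Real.exp ((m - ν') * U) := by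
    refine mul_le_mul_of_nonneg_left (Real.exp_le_exp.2 ?_) hz2
    exact mul_le_mul_of_nonneg_right (by linarith) hU
  have h10 : 0 ≤ C3 * Real.exp (m * U0) * Real.exp ((m - ν') * U) := by positivity
  linarith

end Pool.Agent.N751.CV
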