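import Pool.Agent.N751.CV.Asm
import Pool.Agent.N134.PX.Norm
import Pool.Agent.N776.PX.Loc
import Pool.Agent.N645.PX.Up
import Pool.Agent.N951.PX.Val
import Pool.Agent.N803.PX.Ex
import Pool.Agent.N498.CV.Redc

/-!
# Project CV: the proximity part
-/

set_option autoImplicit false

namespace Pool.Agent.N751.CV

/-- few members of a linear system have a zero with a large proximity function -/
theorem proxT : StmProxC :=
  proxC Pool.Agent.N134.PX.t Pool.Agent.N776.PX.t Pool.Agent.N645.PX.Up.t Pool.Agent.N951.PX.t
    Pool.Agent.N803.PX.t Pool.Agent.N498.CV.t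

end Pool.Agent.N751.CV
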