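import Pool.Agent.N751.CV.Prox
import Pool.Agent.N572.DR.KE
import Pool.Agent.N572.DR.Diag
import Pool.Agent.N752.CV.ZeroC

/-!
# Project CV: the proximity part, one exceptional set
-/

set_option autoImplicit false

namespace Pool.Agent.N751.CV

open NumberField IsDedekindDomain Module Polynomial Pool.Agent.N753.DR
open Pool.Agent.N262.DR (badS_finite)
open scoped LinearAlgebra.Projectivization

/-- **PX/PROXE** one exceptional set for the proximity functions -/
def StmProxE : Prop := ∀ (K A : Type) [Field K] [NumberField K] [CommRing A] [IsDomain A]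
  [Algebra K A] [Algebra K[X] A] [IsScalarTower K K[X] A] [Module.Finite K[X] A]
  [FaithfulSMul K[X] A] (m : ℕ), 1 ≤ m → ∀ (f : Fin m → A), LinearIndependent K f →
  Ideal.span (Set.range f) = ⊤ → ∃ E : Set (ℙ K (Fin m → K)),
    (∀ U : ℝ, 0 ≤ U → {P | P ∈ E ∧ Height.logHeight P.rep ≤ U}.Finite ∧
      ({P | P ∈ E ∧ Height.logHeight P.rep ≤ U}.ncard : ℝ) ≤ Real.exp (m * U - √U)) ∧
    ∀ (p : K[X]), p.Monic → ∀ (S : Finset ℕ), (∀ q ∈ S, q.Prime) → ∀ κ : ℝ, 0 < κ → ∃ C : ℝ,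
      ∀ (M : Type) [Field M] [NumberField M] [Algebra K M] (φ : A →ₐ[K] M)
        (P : ℙ K (Fin m → K)), P ∉ E → Function.Surjective φ →
        RingHom.ker φ = Ideal.span {mem f P.rep} →
        aeval (φ (algebraMap K[X] A X)) p ≠ 0 →
        prox S p (φ (algebraMap K[X] A X)) ≤ κ * Height.logHeight P.rep + C

section

variable {K A : Type} [Field K] [NumberField K] [CommRing A] [IsDomain A]
  [Algebra K A] [Algebra K[X] A] [IsScalarTower K K[X] A] [Module.Finite K[X] A]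
  [FaithfulSMul K[X] A]

/-- the trivial bound for one member of the linear system -/
theorem triv {m : ℕ} (f : Fin m → A) (hf : LinearIndependent K f) (p : K[X]) (hp : p.Monic)
    (S : Finset ℕ) (hS : ∀ q ∈ S, q.Prime) (P : ℙ K (Fin m → K)) : ∃ C : ℝ,
    ∀ (M : Type) [Field M] [NumberField M] [Algebra K M] (φ : A →ₐ[K] M),
      Function.Surjective φ → RingHom.ker φ = Ideal.span {mem f P.rep} →
      aeval (φ (algebraMap K[X] A X)) p ≠ 0 → prox S p (φ (algebraMap K[X] A X)) ≤ C := by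
  classical
  obtain ⟨T, hT⟩ : ∃ T : Finset (HeightOneSpectrum (𝓞 K)),
      ∀ v, v ∈ T ↔ ∃ q ∈ S, (q : 𝓞 K) ∈ v.asIdeal := by
    refine ⟨(badS_finite (K := K) S).toFinset, fun v => ?_⟩
    rw [Set.Finite.mem_toFinset, Set.mem_ofPred_eq]
    exact ⟨fun ⟨q, h1, _, h3⟩ => ⟨q, h1, h3⟩, fun ⟨q, h1, h3⟩ => ⟨q, h1, (hS q h1).ne_zero, h3⟩⟩
  obtain ⟨D, hD⟩ := finrank_le (K := K) f
  obtain ⟨CL, hCL⟩ := Pool.Agent.N776.PX.t K p hp S hS T hT D
  have hmem : mem f P.rep ≠ 0 := by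
    intro h
    apply P.rep_nonzero
    have h1 := Fintype.linearIndependent_iff.1 hf P.rep (by
      unfold mem at h
      exact h)
    funext i
    exact h1 i
  set I : Ideal A := Ideal.span {mem f P.rep} with hI
  obtain ⟨Np, hNp⟩ : ∃ Np : A → K, ∀ z, Np z = Algebra.norm K (Ideal.Quotient.mk I z) :=
    ⟨_, fun _ => rfl⟩
  obtain ⟨x, hx⟩ : ∃ x : A, x = algebraMap K[X] A X := ⟨_, rfl⟩
  obtain ⟨d, hd⟩ : ∃ d : ℕ, d = p.natDegree := ⟨_, rfl⟩
  refine ⟨∑ σ : K →+* ℂ, (d * ∑ a ∈ Finset.range (D + 1), |Real.log ‖σ (Np (x - a))‖| +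
      |Real.log ‖σ (Np (aeval x p))‖|) +
    ∑ v ∈ T, (d * ∑ a ∈ Finset.range (D + 1), |Real.log (FinitePlace.mk v (Np (x - a)))| +
      |Real.log (FinitePlace.mk v (Np (aeval x p)))|) + CL, ?_⟩
  intro M _ _ _ φ hφ hker hy
  rw [← hx] at hy ⊢
  have hker' : RingHom.ker φ = I := hker
  let e : (A ⧸ I) ≃ₐ[K] M :=
    (Ideal.quotientEquivAlgOfEq K hker'.symm).trans (Ideal.quotientKerAlgEquivOfSurjective hφ)
  have he : ∀ z, e (Ideal.Quotient.mk I z) = φ z := by
    intro z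
    rfl
  have hnorm : ∀ z, Algebra.norm K (φ z) = Np z := by
    intro z
    rw [← he, hNp, Algebra.norm_eq_of_algEquiv e]
  have hrk : finrank K M ≤ D := by
    rw [← e.toLinearEquiv.finrank_eq]
    exact hD _ hmem
  obtain ⟨a, b, ha, hb, hle⟩ := hCL M (φ x) hrk hy
  refine hle.trans ?_
  have e1 : ∀ k : ℕ, Algebra.norm K (φ x - (k : M)) = Np (x - k) := by
    intro k
    have h1 : φ (x - (k : A)) = φ x - (k : M) := by rw [map_sub, map_natCast]
    rw [← hnorm, h1]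
  have e2 : Algebra.norm K (aeval (φ x) p) = Np (aeval x p) := by
    have h1 : φ (aeval x p) = aeval (φ x) p := (aeval_algHom_apply φ x p).symm
    rw [← hnorm, h1]
  simp only [e1, e2, ← hd]
  have hd0 : (0 : ℝ) ≤ d := Nat.cast_nonneg d
  gcongr with σ _ v _
  · have h1 : Real.log ‖σ (Np (x - (a σ : A)))‖ ≤
        ∑ k ∈ Finset.range (D + 1), |Real.log ‖σ (Np (x - (k : A)))‖| :=
      (le_abs_self _).trans (Finset.single_le_sum
        (f := fun k : ℕ => |Real.log ‖σ (Np (x - (k : A)))‖|) (fun _ _ => abs_nonneg _)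
        (Finset.mem_range.2 (Nat.lt_succ_of_le (ha σ).1)))
    have h2 := neg_abs_le (Real.log ‖σ (Np (aeval x p))‖)
    have h3 := mul_le_mul_of_nonneg_left h1 hd0
    linarith
  · have h1 : Real.log (FinitePlace.mk v (Np (x - (b v : A)))) ≤
        ∑ k ∈ Finset.range (D + 1), |Real.log (FinitePlace.mk v (Np (x - (k : A))))| :=
      (le_abs_self _).trans (Finset.single_le_sum
        (f := fun k : ℕ => |Real.log (FinitePlace.mk v (Np (x - (k : A))))|)
        (fun _ _ => abs_nonneg _) (Finset.mem_range.2 (Nat.lt_succ_of_le (hb v).1)))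
    have h2 := neg_abs_le (Real.log (FinitePlace.mk v (Np (aeval x p))))
    have h3 := mul_le_mul_of_nonneg_left h1 hd0
    linarith

end

/-- the exceptional set -/
theorem proxE : StmProxE := by
  classical
  intro K A _ _ _ _ _ _ _ _ _ m hm f hf htop
  have hcount := Pool.Agent.N572.DR.KE.countable_pol K
  have hfin : ∀ U : ℝ, 0 ≤ U → {P : ℙ K (Fin m → K) | Height.logHeight P.rep ≤ U}.Finite := by
    intro U hU
    obtain ⟨ν, C, hν, h⟩ := Pool.Agent.N752.CV.t2 Pool.Agent.N498.CV.t K m 1 0 one_ne_zero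
      (MvPolynomial.isHomogeneous_one _ _)
    exact (h U hU).1
  obtain ⟨E, hE1, hE2⟩ := Pool.Agent.N572.DR.Diag.t (ℙ K (Fin m → K)) (Finset ℕ × K[X] × ℕ)
    (fun U P => Height.logHeight P.rep ≤ U) (fun U U' P h1 h2 => h2.trans h1)
    (fun j P => j.2.1.Monic ∧ (∀ q ∈ j.1, q.Prime) ∧
      BadP f j.2.1 j.1 (1 / ((j.2.2 : ℝ) + 1)) P) (m : ℝ) (by exact_mod_cast hm) (by
    rintro ⟨S, p, i⟩
    by_cases hF : p.Monic ∧ (∀ q ∈ S, q.Prime)
    · obtain ⟨ν, C, hν, hC⟩ := proxT K A m f hf htop p hF.1 S hF.2 (1 / ((i : ℝ) + 1))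
        (by positivity)
      refine ⟨ν, C, hν, fun U hU => ?_⟩
      have he : {P : ℙ K (Fin m → K) | (p.Monic ∧ (∀ q ∈ S, q.Prime) ∧
          BadP f p S (1 / ((i : ℝ) + 1)) P) ∧ Height.logHeight P.rep ≤ U} =
          {P : ℙ K (Fin m → K) | BadP f p S (1 / ((i : ℝ) + 1)) P ∧
            Height.logHeight P.rep ≤ U} := by
        ext P
        simp only [Set.mem_ofPred_eq]
        tauto
      simp only [he]
      exact hC U hU
    · refine ⟨1, 0, one_pos, fun U hU => ?_⟩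
      have he : {P : ℙ K (Fin m → K) | (p.Monic ∧ (∀ q ∈ S, q.Prime) ∧
          BadP f p S (1 / ((i : ℝ) + 1)) P) ∧ Height.logHeight P.rep ≤ U} = ∅ := by
        rw [Set.eq_empty_iff_forall_notMem]
        rintro P ⟨⟨h3, h4, _⟩, _⟩
        exact hF ⟨h3, h4⟩
      simp only [he]
      simp)
  refine ⟨E, hE1, ?_⟩
  intro p hp S hS κ hκ
  obtain ⟨i, hi⟩ := exists_nat_one_div_lt hκ
  obtain ⟨U, hU0, hU⟩ := hE2 (S, p, i)
  choose CP hCP using fun P => triv (K := K) f hf p hp S hS P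
  refine ⟨∑ P ∈ (hfin U hU0).toFinset, |CP P|, ?_⟩
  intro M _ _ _ φ P hPE hφ hker hy
  have hht : 0 ≤ Height.logHeight P.rep := Height.logHeight_nonneg _
  have hsum : 0 ≤ ∑ P ∈ (hfin U hU0).toFinset, |CP P| := Finset.sum_nonneg fun _ _ => abs_nonneg _
  rcases lt_or_ge ((1 / ((i : ℝ) + 1)) * Height.logHeight P.rep)
    (prox S p (φ (algebraMap K[X] A X))) with hlt | hge
  · have hbad : BadP f p S (1 / ((i : ℝ) + 1)) P :=
      ⟨M, inferInstance, inferInstance, inferInstance, φ, hφ, hker, hy, hlt⟩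
    have h1 := hU P hPE ⟨hp, hS, hbad⟩
    have h2 := hCP P M φ hφ hker hy
    have h3 : |CP P| ≤ ∑ P ∈ (hfin U hU0).toFinset, |CP P| :=
      Finset.single_le_sum (f := fun P => |CP P|) (fun _ _ => abs_nonneg _) (by
        rw [Set.Finite.mem_toFinset]
        exact h1)
    have h4 := le_abs_self (CP P)
    have h5 : 0 ≤ κ * Height.logHeight P.rep := by positivity
    linarith
  · have h3 : (1 / ((i : ℝ) + 1)) * Height.logHeight P.rep ≤ κ * Height.logHeight P.rep :=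
      mul_le_mul_of_nonneg_right hi.le hht
    linarith

end Pool.Agent.N751.CV
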